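import Pool.Agent.H.MP_0b4a43_pr.A

namespace Pool.Agent.Results.MP_7af27d_pr.Const

open MeasureTheory Filter Topology

theorem result {G : Type} [Group G] [TopologicalSpace G] [IsTopologicalGroup G] [MeasurableSpace G]
    [BorelSpace G] (μ : Measure G) [IsProbabilityMeasure μ]
    (adapted : ∀ H : Subgroup G, IsClosed (H : Set G) → μ H = 1 → H = ⊤)
    (symm : ∀ A : Set G, MeasurableSet A → μ A⁻¹ = μ A)
    (f : G → ℝ) (cont : Continuous f)
    (conv : ∀ x, ∀ᵐ ω ∂(Measure.infinitePi fun _ : ℕ => μ),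
      ∃ l, Tendsto (fun t => f (x * ((List.range t).map ω).prod)) atTop (𝓝 l))
    (fin : FiniteDimensional ℝ (Submodule.span ℝ (Set.range fun γ x => f (γ⁻¹ * x)))) (x y : G) :
    f x = f y :=
  (H.MP_0b4a43_pr.main μ adapted symm f cont conv fin x).trans
    (H.MP_0b4a43_pr.main μ adapted symm f cont conv fin y).symm

end Pool.Agent.Results.MP_7af27d_pr.Const
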